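import Mathlib
import Pool.Agent.Lib.MP_c725eb_pr.Main

/-!
# Geodesics from `-n e₁` to `n e₁` in planar first-passage percolation leave every vertex

First-passage percolation on the square lattice with independent identically distributed
nonnegative edge weights. If the model is uniquely geodesic, then almost surely no vertex lies on
the geodesic from (-n, 0) to (n, 0) for infinitely many `n`. The same is true, for all minimising
walks, if the common law has no atoms (no moment is assumed); a uniquely geodesic model has this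
property.
-/

set_option autoImplicit false

open MeasureTheory ProbabilityTheory
open scoped NNReal

universe u

namespace Pool.Agent.Results.MP_c725eb_pr.GeodesicsEscape

/-- The nearest-neighbour lattice `ℤ²`: two points are adjacent if their `ℓ¹`-distance is `1`. -/
def Z2 : SimpleGraph (ℤ × ℤ) where
  Adj x y := |x.1 - y.1| + |x.2 - y.2| = 1
  symm := ⟨fun x y h => by rw [abs_sub_comm y.1, abs_sub_comm y.2]; exact h⟩
  loopless := ⟨fun x h => by simp at h⟩

section Defs

variable {V : Type} {G : SimpleGraph V}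

/-- The passage time of a walk: the sum of the weights `τ` of its edges. -/
def passage (τ : G.edgeSet → ℝ≥0) {x y : V} (p : G.Walk x y) : ℝ≥0 :=
  (p.darts.map fun d => τ ⟨d.edge, d.edge_mem⟩).sum

/-- The passage time T(x, y): the infimum of the passage times of the walks from `x` to `y`. -/
noncomputable def T (τ : G.edgeSet → ℝ≥0) (x y : V) : ℝ≥0 := ⨅ p : G.Walk x y, passage τ p

/-- The walk `p` from `x` to `y` is a geodesic: its passage time is T(x, y). -/
def IsGeodesic (τ : G.edgeSet → ℝ≥0) {x y : V} (p : G.Walk x y) : Prop := passage τ p = T τ x y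

variable {Ω : Type u} [MeasurableSpace Ω]

/-- The edge weights `t e` are independent and identically distributed random variables. -/
def IsIID (P : Measure Ω) (t : G.edgeSet → Ω → ℝ≥0) : Prop :=
  (∀ e, Measurable (t e)) ∧ iIndepFun t P ∧ ∀ e e', P.map (t e) = P.map (t e')

/-- The model is uniquely geodesic: almost surely there is, for all vertices `x` and `y`, exactly
one self-avoiding geodesic from `x` to `y`. -/
def UniquelyGeodesic (P : Measure Ω) (t : G.edgeSet → Ω → ℝ≥0) : Prop :=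
  ∀ᵐ ω ∂P, ∀ x y : V, ∃! p : G.Walk x y, p.IsPath ∧ IsGeodesic (fun e => t e ω) p

/-- The common law of the edge weights has no atoms (it is continuous). -/
def NoAtoms (P : Measure Ω) (t : G.edgeSet → Ω → ℝ≥0) : Prop :=
  ∀ (e : G.edgeSet) (a : ℝ≥0), P {ω | t e ω = a} = 0

end Defs

/-- Almost surely each vertex lies on a geodesic from (-n, 0) to (n, 0) (self-avoiding or not)
for finitely many `n` only. -/
def Escape {Ω : Type u} [MeasurableSpace Ω] (P : Measure Ω) (t : Z2.edgeSet → Ω → ℝ≥0) : Prop :=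
  ∀ᵐ ω ∂P, ∀ v : ℤ × ℤ, Set.Finite {n : ℕ | ∃ p : Z2.Walk ((-n : ℤ), (0 : ℤ)) ((n : ℤ), (0 : ℤ)),
    IsGeodesic (fun e => t e ω) p ∧ v ∈ p.support}

/-! ## Proof -/

theorem z2_eq : Z2 = C7.Sq := by
  ext u v
  rw [C7.sq_adj]
  obtain ⟨a, b⟩ := u
  obtain ⟨c, d⟩ := v
  simp only [Z2, C7.Nb, Prod.mk.injEq]
  rcases abs_cases (a - c) with h1 | h1 <;> rcases abs_cases (b - d) with h2 | h2 <;> omega

theorem coe_passage {V : Type} {G : SimpleGraph V} (τ : G.edgeSet → ℝ≥0) {x y : V}
    (p : G.Walk x y) : ((passage τ p : ℝ≥0) : ℝ) =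
      (p.darts.map fun d => ((τ ⟨d.edge, d.edge_mem⟩ : ℝ≥0) : ℝ)).sum := by
  unfold passage
  rw [NNReal.coe_list_sum, List.map_map]
  rfl

theorem isGeodesic_iff {V : Type} {G : SimpleGraph V} (τ : G.edgeSet → ℝ≥0) {x y : V}
    (p : G.Walk x y) : IsGeodesic τ p ↔ ∀ q : G.Walk x y,
      (p.darts.map fun d => ((τ ⟨d.edge, d.edge_mem⟩ : ℝ≥0) : ℝ)).sum ≤
        (q.darts.map fun d => ((τ ⟨d.edge, d.edge_mem⟩ : ℝ≥0) : ℝ)).sum := by
  have hne : Nonempty (G.Walk x y) := ⟨p⟩
  constructor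
  · intro h q
    rw [← coe_passage, ← coe_passage, NNReal.coe_le_coe, h]
    exact ciInf_le (OrderBot.bddBelow _) q
  · intro h
    refine le_antisymm (le_ciInf fun q => ?_) (ciInf_le (OrderBot.bddBelow _) p)
    have := h q
    rwa [← coe_passage, ← coe_passage, NNReal.coe_le_coe] at this

/-- the law of the configuration -/
theorem law {Ω : Type u} [MeasurableSpace Ω] (P : Measure Ω) [IsProbabilityMeasure P]
    (t : C7.Sq.edgeSet → Ω → ℝ≥0) (h : IsIID P t) (e0 : C7.Sq.edgeSet) :
    P.map (fun ω (e : C7.Ed) => ((t (C7.edg e) ω : ℝ≥0) : ℝ)) =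
      C7.iid C7.Ed (P.map fun ω => ((t e0 ω : ℝ≥0) : ℝ)) := by
  obtain ⟨hmeas, hindep, hident⟩ := h
  have hm : ∀ e, Measurable fun ω => ((t e ω : ℝ≥0) : ℝ) := fun e => (hmeas e).coe_nnreal_real
  have h0 : iIndepFun (fun (e : C7.Sq.edgeSet) ω => ((t e ω : ℝ≥0) : ℝ)) P :=
    hindep.comp (fun _ => ((↑) : ℝ≥0 → ℝ)) fun _ => measurable_coe_nnreal_real
  have h1 : iIndepFun (fun (e : C7.Ed) ω => ((t (C7.edg e) ω : ℝ≥0) : ℝ)) P :=
    h0.precomp C7.edg_injective
  have h2 := h1.map_fun_eq_infinitePi_map (fun e => hm (C7.edg e))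
  rw [h2, C7.iid]
  congr 1
  funext e
  have h3 : ∀ e', P.map (fun ω => ((t e' ω : ℝ≥0) : ℝ)) =
      (P.map (t e')).map ((↑) : ℝ≥0 → ℝ) := fun e' => by
    rw [Measure.map_map measurable_coe_nnreal_real (hmeas e')]
    rfl
  rw [h3, h3, hident _ e0]

theorem aux_noAtoms {Ω : Type u} [MeasurableSpace Ω] (P : Measure Ω) [IsProbabilityMeasure P]
    (G : SimpleGraph (ℤ × ℤ)) (hG : G = C7.Sq) (t : G.edgeSet → Ω → ℝ≥0) (h : IsIID P t)
    (hu : UniquelyGeodesic P t) : NoAtoms P t := by
  subst hG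
  have hmeas := h.1
  have hident := h.2.2
  intro e1 a
  set e0 : C7.Sq.edgeSet := C7.edg ((0, 0), 0) with he0
  set F : Measure ℝ := P.map (fun ω => ((t e0 ω : ℝ≥0) : ℝ)) with hF
  have hm0 : Measurable fun ω => ((t e0 ω : ℝ≥0) : ℝ) := (hmeas e0).coe_nnreal_real
  have hFp : IsProbabilityMeasure F := Measure.isProbabilityMeasure_map hm0.aemeasurable
  have hlaw := law P t h e0
  rw [← hF] at hlaw
  set φ : Ω → C7.Om := fun ω e => ((t (C7.edg e) ω : ℝ≥0) : ℝ) with hφ
  have hφm : Measurable φ := measurable_pi_lambda _ fun e => (hmeas _).coe_nnreal_real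
  by_contra hcon
  have ha : F {(a : ℝ)} ≠ 0 := by
    rw [hF, Measure.map_apply hm0 (measurableSet_singleton _)]
    have h4 : (fun ω => ((t e0 ω : ℝ≥0) : ℝ)) ⁻¹' {(a : ℝ)} = (t e0) ⁻¹' {a} := by
      ext ω
      simp
    rw [h4, ← Measure.map_apply (hmeas e0) (measurableSet_singleton a), hident e0 e1,
      Measure.map_apply (hmeas e1) (measurableSet_singleton a)]
    exact hcon
  set S : Finset C7.Ed := C7.inc (0, 0) ∪ C7.inc (1, 1) with hS
  have h1 : P (φ ⁻¹' ((S : Set C7.Ed).pi fun _ => {(a : ℝ)})) ≠ 0 := by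
    rw [← Measure.map_apply hφm (.pi S.countable_toSet fun _ _ => measurableSet_singleton _),
      hlaw, C7.iid, Measure.infinitePi_pi _ fun _ _ => measurableSet_singleton _,
      Finset.prod_ne_zero_iff]
    exact fun _ _ => ha
  obtain ⟨ω, h2, h4⟩ : ∃ ω, ω ∈ φ ⁻¹' ((S : Set C7.Ed).pi fun _ => {(a : ℝ)}) ∧
      ∀ x y : ℤ × ℤ, ∃! p : C7.Sq.Walk x y, p.IsPath ∧ IsGeodesic (fun e => t e ω) p := by
    by_contra hc
    apply h1
    rw [measure_eq_zero_iff_ae_notMem]
    filter_upwards [hu] with ω h4 h2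
    exact hc ⟨ω, h2, h4⟩
  refine C7.not_unique (c := fun e => ((t e ω : ℝ≥0) : ℝ)) (fun e => NNReal.coe_nonneg _)
    (a := (a : ℝ)) (fun e he => ?_) (fun e he => ?_) ?_
  · exact h2 e (Finset.mem_coe.2 (Finset.mem_union_left _ he))
  · exact h2 e (Finset.mem_coe.2 (Finset.mem_union_right _ he))
  · obtain ⟨p, hp, hp'⟩ := h4 (0, 0) (1, 1)
    refine ⟨p, ⟨hp.1, (isGeodesic_iff _ p).1 hp.2⟩, fun q hq => ?_⟩
    exact hp' q ⟨hq.1, (isGeodesic_iff _ q).2 hq.2⟩

theorem aux_escape {Ω : Type u} [MeasurableSpace Ω] (P : Measure Ω) [IsProbabilityMeasure P]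
    (G : SimpleGraph (ℤ × ℤ)) (hG : G = C7.Sq) (t : G.edgeSet → Ω → ℝ≥0) (h : IsIID P t)
    (ha : NoAtoms P t) :
    ∀ᵐ ω ∂P, ∀ v : ℤ × ℤ, Set.Finite {n : ℕ | ∃ p : G.Walk ((-n : ℤ), (0 : ℤ)) ((n : ℤ), (0 : ℤ)),
      IsGeodesic (fun e => t e ω) p ∧ v ∈ p.support} := by
  subst hG
  have hmeas := h.1
  set e0 : C7.Sq.edgeSet := C7.edg ((0, 0), 0) with he0
  set F : Measure ℝ := P.map (fun ω => ((t e0 ω : ℝ≥0) : ℝ)) with hF
  have hm0 : Measurable fun ω => ((t e0 ω : ℝ≥0) : ℝ) := (hmeas e0).coe_nnreal_real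
  have hFp : IsProbabilityMeasure F := Measure.isProbabilityMeasure_map hm0.aemeasurable
  have hlaw := law P t h e0
  rw [← hF] at hlaw
  set φ : Ω → C7.Om := fun ω e => ((t (C7.edg e) ω : ℝ≥0) : ℝ) with hφ
  have hφm : Measurable φ := measurable_pi_lambda _ fun e => (hmeas _).coe_nnreal_real
  have hF0 : F (Set.Iio 0) = 0 := by
    rw [hF, Measure.map_apply hm0 measurableSet_Iio]
    convert measure_empty (μ := P) using 2
    ext ω
    simp
  have hFa : ∀ a, F {a} = 0 := by
    intro a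
    rw [hF, Measure.map_apply hm0 (measurableSet_singleton _)]
    rcases lt_or_ge a 0 with h0 | h0
    · convert measure_empty (μ := P) using 2
      ext ω
      simp only [Set.mem_preimage, Set.mem_singleton_iff, Set.mem_empty_iff_false, iff_false]
      intro h5
      have := NNReal.coe_nonneg (t e0 ω)
      linarith
    · have := ha e0 ⟨a, h0⟩
      convert this using 2
      ext ω
      simp only [Set.mem_preimage, Set.mem_singleton_iff, Set.mem_ofPred_eq]
      exact ⟨fun h5 => NNReal.eq h5, fun h5 => by rw [h5]; rfl⟩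
  have hfin := C7.canonical_main F hF0 hFa
  rw [← hlaw] at hfin
  have hfin' := ae_of_ae_map hφm.aemeasurable hfin
  filter_upwards [hfin'] with ω h1 v
  refine (h1 v).subset ?_
  rintro n ⟨p, hp, hv⟩
  exact C7.T_add_eq (c := fun e => ((t e ω : ℝ≥0) : ℝ)) (fun e => NNReal.coe_nonneg _) p
    ((isGeodesic_iff _ p).1 hp) hv

/-- **First-passage percolation on `ℤ²` with independent identically distributed nonnegative
weights.** (1) If the model is uniquely geodesic, almost surely each vertex lies on the geodesic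
from (-n, 0) to (n, 0) for finitely many `n` only. (2) The same holds, for all minimising walks, if
the common law of the weights has no atoms. (3) A uniquely geodesic model has such a law. -/
theorem result {Ω : Type u} [MeasurableSpace Ω] (P : Measure Ω) [IsProbabilityMeasure P]
    (t : Z2.edgeSet → Ω → ℝ≥0) (h : IsIID P t) :
    (UniquelyGeodesic P t → Escape P t) ∧ (NoAtoms P t → Escape P t) ∧
      (UniquelyGeodesic P t → NoAtoms P t) :=
  ⟨fun hu => aux_escape P Z2 z2_eq t h (aux_noAtoms P Z2 z2_eq t h hu),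
    fun ha => aux_escape P Z2 z2_eq t h ha, fun hu => aux_noAtoms P Z2 z2_eq t h hu⟩

end Pool.Agent.Results.MP_c725eb_pr.GeodesicsEscape
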